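import Mathlib

/-!
A dyadic colouring that blocks the pattern when two polynomials are exceptional.
-/

namespace Pool.Agent.Work.MP_5597c5_co.Hedge

open Polynomial

/-- `y` is `2 ^ w` times an odd number. -/
def Val (y : ℤ) (w : ℕ) : Prop := ∃ o : ℤ, Odd o ∧ y = 2 ^ w * o

theorem Val.le_of_dvd {y : ℤ} {w v : ℕ} (h : Val y w) (hv : (2 : ℤ) ^ v ∣ y) : v ≤ w := by
  obtain ⟨o, ho, rfl⟩ := h
  by_contra hlt
  have h1 : (2 : ℤ) ^ w * 2 ∣ 2 ^ w * o := by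
    rw [← pow_succ]
    exact (pow_dvd_pow 2 (by omega)).trans hv
  have h2 : (2 : ℤ) ∣ o := (mul_dvd_mul_iff_left (pow_ne_zero _ two_ne_zero)).1 h1
  exact (Int.not_even_iff_odd.2 ho) (even_iff_two_dvd.2 h2)

theorem Val.dvd {y : ℤ} {w : ℕ} (h : Val y w) : (2 : ℤ) ^ w ∣ y := by
  obtain ⟨o, -, rfl⟩ := h
  exact dvd_mul_right _ _

theorem Val.unique {y : ℤ} {w v : ℕ} (h : Val y w) (h' : Val y v) : w = v :=
  le_antisymm (h'.le_of_dvd h.dvd) (h.le_of_dvd h'.dvd)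

theorem exists_val {y : ℤ} (hy : y ≠ 0) : ∃ w, Val y w := by
  obtain ⟨w, o, ho, h⟩ := Nat.exists_eq_two_pow_mul_odd (Int.natAbs_ne_zero.2 hy)
  have h1 : ((y.natAbs : ℕ) : ℤ) = 2 ^ w * (o : ℤ) := by rw [h]; push_cast; rfl
  have ho' : Odd (o : ℤ) := (Int.odd_coe_nat o).2 ho
  rcases Int.natAbs_eq y with h2 | h2
  · exact ⟨w, o, ho', h2.trans h1⟩
  · exact ⟨w, -o, ho'.neg, by rw [h2, h1]; ring⟩

theorem Val.mul {y z : ℤ} {w v : ℕ} (h : Val y w) (h' : Val z v) : Val (y * z) (w + v) := by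
  obtain ⟨o, ho, rfl⟩ := h
  obtain ⟨o', ho', rfl⟩ := h'
  exact ⟨o * o', ho.mul ho', by ring⟩

theorem Val.pow {y : ℤ} {w : ℕ} (h : Val y w) (e : ℕ) : Val (y ^ e) (e * w) := by
  obtain ⟨o, ho, rfl⟩ := h
  exact ⟨o ^ e, ho.pow, by ring⟩

theorem Val.add {y z : ℤ} {w : ℕ} (h : Val y w) (hz : (2 : ℤ) ^ (w + 1) ∣ z) :
    Val (y + z) w := by
  obtain ⟨o, ho, rfl⟩ := h
  obtain ⟨u, rfl⟩ := hz
  exact ⟨o + 2 * u, ho.add_even (even_two_mul u), by ring⟩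

theorem Val.bit {y z : ℤ} {w : ℕ} (h : Val (y - z) w) :
    ((y / 2 ^ w : ℤ) : ZMod 2) ≠ ((z / 2 ^ w : ℤ) : ZMod 2) := by
  obtain ⟨o, ⟨u, rfl⟩, h⟩ := h
  have h1 : y = z + (2 * u + 1) * 2 ^ w := by linear_combination h
  rw [h1, Int.add_mul_ediv_right _ _ (pow_ne_zero _ two_ne_zero)]
  push_cast
  have h2 : (2 : ZMod 2) = 0 := rfl
  rw [h2, zero_mul, zero_add]
  intro h3
  exact one_ne_zero (add_eq_left.1 h3)

theorem val_eval_unit {D : ℤ[X]} (hD : D.eval 0 ≠ 0) :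
    ∃ β : ℕ, ∀ (d : ℤ) (δ : ℕ), Val d δ → β < δ → Val (D.eval d) β := by
  obtain ⟨β, hβ⟩ := exists_val hD
  refine ⟨β, fun d δ hd hlt => ?_⟩
  have h1 : d ∣ D.eval d - D.eval 0 := by simpa using sub_dvd_eval_sub d 0 D
  have h2 := hβ.add (((pow_dvd_pow 2 hlt).trans hd.dvd).trans h1)
  rwa [add_sub_cancel] at h2

theorem val_eval {D : ℤ[X]} (hD : D ≠ 0) :
    ∃ β e : ℕ, ∀ (d : ℤ) (δ : ℕ), Val d δ → β < δ → Val (D.eval d) (e * δ + β) := by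
  obtain ⟨D₁, hD₁, hnd⟩ := exists_eq_pow_rootMultiplicity_mul_and_not_dvd D hD 0
  generalize rootMultiplicity 0 D = e at hD₁
  simp only [map_zero, sub_zero] at hD₁ hnd
  have h0 : D₁.eval 0 ≠ 0 := by rwa [X_dvd_iff, coeff_zero_eq_eval_zero] at hnd
  obtain ⟨β, hβ⟩ := val_eval_unit h0
  refine ⟨β, e, fun d δ hd hlt => ?_⟩
  rw [hD₁, eval_mul, eval_pow, eval_X]
  exact (hd.pow e).mul (hβ d δ hd hlt)

theorem neg {k : ℕ} (Q₁ : ℤ[X]) (hQ0 : Q₁.eval 0 ≠ 0) (P : Fin k → ℤ[X])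
    (hP : Function.Injective P)
    (hb : ∀ c : ℤ, ∃ i j, i ≠ j ∧ (P i).eval 0 ≠ c ∧ (P j).eval 0 ≠ c) :
    ∃ (N : ℕ) (κ : Type) (_ : Finite κ) (χ : ℤ → κ), 0 < N ∧ ∀ x d : ℤ, d ≠ 0 → (N : ℤ) ∣ d →
      ∃ i j, χ ((X * Q₁).eval d * (x + (P i).eval d)) ≠
        χ ((X * Q₁).eval d * (x + (P j).eval d)) := by
  classical
  obtain ⟨ν, hν⟩ : ∃ ν : ℤ → ℕ, ∀ y w, Val y w → ν y = w := by
    refine ⟨fun y => if h : ∃ w, Val y w then h.choose else 0, fun y w hw => ?_⟩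
    have h : ∃ w, Val y w := ⟨w, hw⟩
    simp only [dif_pos h]
    exact h.choose_spec.unique hw
  obtain ⟨r, hr⟩ : ∃ r : ℕ, ∀ i j, (2 : ℤ) ^ (r + 1) ∣ (P i).eval 0 - (P j).eval 0 →
      (P i).eval 0 = (P j).eval 0 := by
    refine ⟨Finset.univ.sup fun x : Fin k × Fin k =>
      ((P x.1).eval 0 - (P x.2).eval 0).natAbs, fun i j h => ?_⟩
    refine sub_eq_zero.1 (Int.eq_zero_of_dvd_of_natAbs_lt_natAbs h ?_)
    have h1 := Finset.le_sup (f := fun x : Fin k × Fin k =>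
      ((P x.1).eval 0 - (P x.2).eval 0).natAbs) (Finset.mem_univ (i, j))
    rw [Int.natAbs_pow]
    exact lt_of_le_of_lt h1 ((Nat.lt_succ_self _).trans (Nat.lt_two_pow_self))
  obtain ⟨α, hα⟩ := val_eval_unit hQ0
  have hD : ∀ i j, ∃ β e : ℕ, i ≠ j → ∀ (d : ℤ) (δ : ℕ), Val d δ → β < δ →
      Val ((P i - P j).eval d) (e * δ + β) := by
    intro i j
    by_cases hij : i = j
    · exact ⟨0, 0, fun h => (h hij).elim⟩
    · obtain ⟨β, e, h⟩ := val_eval (sub_ne_zero.2 fun h => hij (hP h))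
      exact ⟨β, e, fun _ => h⟩
  choose β e hD using hD
  let b : ℕ := Finset.univ.sup fun x : Fin k × Fin k => β x.1 x.2
  have hb' : ∀ i j, β i j ≤ b := fun i j =>
    Finset.le_sup (f := fun x : Fin k × Fin k => β x.1 x.2) (Finset.mem_univ (i, j))
  let π : Fin (r + 1) × Fin k × Fin k → ℕ → ℕ := fun a w =>
    (w - α - a.1) + α + (e a.2.1 a.2.2 * (w - α - a.1) + β a.2.1 a.2.2)
  refine ⟨2 ^ (r + α + b + 1), ZMod (r + 1) × (Fin (r + 1) × Fin k × Fin k → ZMod 2),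
    inferInstance, fun y => ((ν y : ZMod (r + 1)), fun a => ((y / 2 ^ π a (ν y) : ℤ) : ZMod 2)),
    Nat.two_pow_pos _, fun x d hd hN => ?_⟩
  obtain ⟨δ, hδ⟩ := exists_val hd
  have hL : r + α + b + 1 ≤ δ := hδ.le_of_dvd (by exact_mod_cast hN)
  have hQ : Val ((X * Q₁).eval d) (δ + α) := by
    rw [eval_mul, eval_X]
    exact hδ.mul (hα d δ hδ (by omega))
  have hc : ∀ i, (2 : ℤ) ^ (r + 1) ∣ (P i).eval d - (P i).eval 0 := fun i =>
    ((pow_dvd_pow 2 (by omega)).trans hδ.dvd).trans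
      (by simpa using sub_dvd_eval_sub d 0 (P i))
  obtain ⟨i, j, hij, hi, hj⟩ : ∃ i j, i ≠ j ∧ ¬ (2 : ℤ) ^ (r + 1) ∣ x + (P i).eval d ∧
      ¬ (2 : ℤ) ^ (r + 1) ∣ x + (P j).eval d := by
    by_cases hex : ∃ i₀, (2 : ℤ) ^ (r + 1) ∣ x + (P i₀).eval d
    · obtain ⟨i₀, h₀⟩ := hex
      obtain ⟨i, j, hij, hi, hj⟩ := hb ((P i₀).eval 0)
      have key : ∀ i, (2 : ℤ) ^ (r + 1) ∣ x + (P i).eval d → (P i).eval 0 = (P i₀).eval 0 := by
        intro i h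
        refine hr i i₀ ?_
        have h1 := dvd_add (dvd_sub (dvd_sub h h₀) (hc i)) (hc i₀)
        have h2 : x + (P i).eval d - (x + (P i₀).eval d) - ((P i).eval d - (P i).eval 0) +
            ((P i₀).eval d - (P i₀).eval 0) = (P i).eval 0 - (P i₀).eval 0 := by ring
        rwa [h2] at h1
      exact ⟨i, j, hij, fun h => hi (key i h), fun h => hj (key j h)⟩
    · obtain ⟨i, j, hij, -, -⟩ := hb 0
      exact ⟨i, j, hij, fun h => hex ⟨i, h⟩, fun h => hex ⟨j, h⟩⟩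
  have hlow : ∀ i, ¬ (2 : ℤ) ^ (r + 1) ∣ x + (P i).eval d →
      ∃ ρ ≤ r, Val (x + (P i).eval d) ρ := by
    intro i h
    obtain ⟨ρ, hρ⟩ := exists_val (y := x + (P i).eval d) fun h0 => h (h0 ▸ dvd_zero _)
    refine ⟨ρ, ?_, hρ⟩
    by_contra hlt
    exact h ((pow_dvd_pow 2 (by omega)).trans hρ.dvd)
  obtain ⟨ρ, hρ, hvi⟩ := hlow i hi
  obtain ⟨ρ', hρ', hvj⟩ := hlow j hj
  refine ⟨i, j, fun h => ?_⟩
  have hνi := hν _ _ (hQ.mul hvi)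
  have hνj := hν _ _ (hQ.mul hvj)
  obtain ⟨h1, h2⟩ := Prod.mk.inj h
  rw [hνi, hνj] at h1 h2
  have hρρ : ρ = ρ' := by
    have h3 := (ZMod.natCast_eq_natCast_iff _ _ _).1 h1
    have h4 := Nat.ModEq.add_left_cancel' _ h3
    exact Nat.ModEq.eq_of_lt_of_lt h4 (by omega) (by omega)
  subst hρρ
  have h5 := congrFun h2 (⟨ρ, by omega⟩, i, j)
  have h6 : π (⟨ρ, by omega⟩, i, j) (δ + α + ρ) = δ + α + (e i j * δ + β i j) := by
    have : δ + α + ρ - α - ρ = δ := by omega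
    simp only [π, this]
  simp only [h6] at h5
  refine Val.bit ?_ h5
  have h7 := hQ.mul (hD i j hij d δ hδ (by have := hb' i j; omega))
  have h8 : (X * Q₁).eval d * (x + (P i).eval d) - (X * Q₁).eval d * (x + (P j).eval d) =
      (X * Q₁).eval d * (P i - P j).eval d := by
    rw [eval_sub]; ring
  rwa [h8]

end Pool.Agent.Work.MP_5597c5_co.Hedge
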