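import Pool.Agent.Lib.PolyVdW.Int

-- merged part: Pool.Agent.Work.MP_5597c5_co.Hedge.Nat
section
/-!
Polynomial van der Waerden over a commutative ring, with a positive natural number as the gap.
-/

namespace Pool.Agent.Work.MP_5597c5_co.Hedge

open Polynomial Pool.Agent.Lib.PolyVdW

variable {R : Type} [CommRing R]

/-- Polynomial van der Waerden for the family `S`, the gap being a positive natural number. -/
def NStmt (S : Finset R[X]) : Prop :=
  ∀ (κ : Type) [Finite κ] [Nonempty κ] (χ : R → κ),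
    ∃ (c : R) (n : ℕ), 0 < n ∧ ∀ p ∈ S, χ (c + p.eval (n : R)) = χ c

theorem nfocus {S : Finset R[X]} {p₁ : R[X]} (hS : ∀ p ∈ S, p.eval 0 = 0)
    (IH : ∀ G : Finset R, NStmt (shiftFam S p₁ G)) {κ : Type} [Finite κ] [Nonempty κ] (s : ℕ) :
    ∀ χ : R → κ, ∃ (z : R) (K : Finset κ) (e : κ → ℕ), (∀ i, 0 < e i) ∧
      (∀ i ∈ K, ∀ p ∈ S, p ≠ 0 → χ (z + p.eval (e i : R)) = i) ∧ (K.card = s ∨ χ z ∈ K) := by
  classical
  induction s with
  | zero => exact fun χ => ⟨0, ∅, fun _ => 1, fun _ => one_pos, by simp, by simp⟩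
  | succ s ih =>
    let Ω : Type := {ω : R × Finset κ × (κ → ℕ) × κ // ∀ i, 0 < ω.2.2.1 i}
    let P : (R → κ) → Ω → Prop := fun χ ω =>
      (∀ i ∈ ω.1.2.1, ∀ p ∈ S, p ≠ 0 → χ (ω.1.1 + p.eval (ω.1.2.2.1 i : R)) = i) ∧
        χ ω.1.1 = ω.1.2.2.2 ∧ (ω.1.2.1.card = s ∨ ω.1.2.2.2 ∈ ω.1.2.1)
    obtain ⟨F, f, hf⟩ := compact_colourings P (by
      rintro χ ⟨⟨z, K, e, c⟩, hω⟩ ⟨h1, h2, h3⟩
      refine ⟨insert z ((K ×ˢ S).image fun x => z + x.2.eval (e x.1 : R)),
        fun χ' h => ⟨?_, ?_, h3⟩⟩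
      · intro i hi p hp hp0
        exact (h (z + p.eval (e i : R)) (Finset.mem_insert_of_mem
          (Finset.mem_image.2 ⟨(i, p), Finset.mem_product.2 ⟨hi, hp⟩, rfl⟩))).trans
          (h1 i hi p hp hp0)
      · simp only at h2 ⊢
        rw [← h2]
        exact h z (Finset.mem_insert_self _ _)) (by
      intro χ
      obtain ⟨z, K, e, h1, h2, h3⟩ := ih χ
      exact ⟨⟨(z, K, e, χ z), h1⟩, h2, rfl, h3⟩)
    have _ : Fintype κ := Fintype.ofFinite κ
    set z : (F → κ) → R := fun τ => (f τ).1.1 with hz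
    set K : (F → κ) → Finset κ := fun τ => (f τ).1.2.1 with hK
    set e : (F → κ) → κ → ℕ := fun τ => (f τ).1.2.2.1 with he
    set c : (F → κ) → κ := fun τ => (f τ).1.2.2.2 with hc
    have har : ∀ τ i, 0 < e τ i := fun τ => (f τ).2
    have hf' : ∀ χ : R → κ, (∀ i ∈ K (fun x => χ x), ∀ p ∈ S, p ≠ 0 →
        χ (z (fun x => χ x) + p.eval (e (fun x => χ x) i : R)) = i) ∧
        χ (z (fun x => χ x)) = c (fun x => χ x) ∧
        ((K (fun x => χ x)).card = s ∨ c (fun x => χ x) ∈ K (fun x => χ x)) := hf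
    clear_value z K e c
    clear hf f P Ω hz hK he hc
    let G : Finset R :=
      insert 0 (Finset.univ.biUnion fun τ => (K τ).image fun i => (e τ i : R))
    have hG0 : (0 : R) ∈ G := Finset.mem_insert_self _ _
    have hGe : ∀ τ, ∀ i ∈ K τ, (e τ i : R) ∈ G := fun τ i hi => Finset.mem_insert_of_mem
      (Finset.mem_biUnion.2 ⟨τ, Finset.mem_univ _, Finset.mem_image_of_mem _ hi⟩)
    intro χ
    obtain ⟨B, l, hl, hcol⟩ := IH G (F → κ) (fun B x => χ (B + x))
    set τ : F → κ := fun x => χ (B + x) with hτ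
    have hshift : ∀ p ∈ S, p ≠ 0 → ∀ g ∈ G,
        (fun x : F => χ (B + (p.eval ((l : R) + g) - p.eval g - p₁.eval (l : R)) + x)) = τ := by
      intro p hp hp0 g hg
      have := hcol (taylor g p - C (p.eval g) - p₁) (Finset.mem_image.2
        ⟨(p, g), Finset.mem_product.2 ⟨Finset.mem_filter.2 ⟨hp, hp0⟩, hg⟩, rfl⟩)
      simpa [taylor_eval] using this
    have h0 := hf' (fun x => χ (B + x))
    by_cases hcK : c τ ∈ K τ
    · refine ⟨B + z τ, K τ, e τ, har τ, ?_, ?_⟩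
      · intro i hi p hp hp0
        rw [add_assoc]
        exact h0.1 i hi p hp hp0
      · right
        rw [h0.2.1]
        exact hcK
    · have hcard : (K τ).card = s := h0.2.2.resolve_right hcK
      have hne : ∀ i ∈ K τ, i ≠ c τ := fun i hi h => hcK (h ▸ hi)
      refine ⟨B + z τ - p₁.eval (l : R), insert (c τ) (K τ),
        fun i => if i = c τ then l else e τ i + l, fun i => ?_, ?_, ?_⟩
      · dsimp only
        split_ifs
        · exact hl
        · omega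
      · intro i hi p hp hp0
        rcases Finset.mem_insert.1 hi with rfl | hi
        · simp only [if_true]
          have h1 := (hf' (fun x =>
            χ (B + (p.eval ((l : R) + 0) - p.eval 0 - p₁.eval (l : R)) + x))).2.1
          rw [hshift p hp hp0 0 hG0] at h1
          rw [← h1]
          congr 1
          rw [hS p hp, add_zero]; ring
        · simp only [if_neg (hne i hi)]
          have h1 := (hf' (fun x => χ (B + (p.eval ((l : R) + (e τ i : R)) -
            p.eval (e τ i : R) - p₁.eval (l : R)) + x))).1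
          rw [hshift p hp hp0 _ (hGe τ i hi)] at h1
          refine Eq.trans ?_ (h1 i hi p hp hp0)
          congr 1
          rw [Nat.cast_add, add_comm (e τ i : R) (l : R)]; ring
      · left
        rw [Finset.card_insert_of_notMem hcK, hcard]

theorem nstep {S : Finset R[X]} {p₁ : R[X]} (hS : ∀ p ∈ S, p.eval 0 = 0)
    (IH : ∀ G : Finset R, NStmt (shiftFam S p₁ G)) : NStmt S := by
  classical
  intro κ _ _ χ
  have _ : Fintype κ := Fintype.ofFinite κ
  obtain ⟨z, K, e, h1, h2, h3⟩ := nfocus hS IH (Fintype.card κ + 1) χ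
  have hK : χ z ∈ K := h3.resolve_left fun h => by
    have := K.card_le_univ
    omega
  refine ⟨z, e (χ z), h1 _, fun p hp => ?_⟩
  by_cases hp0 : p = 0
  · simp [hp0]
  · exact h2 _ hK p hp hp0

theorem nstmt_all (S : Finset R[X]) (hS : ∀ p ∈ S, p.eval 0 = 0) : NStmt S := by
  classical
  have hwf : WellFounded (Finsupp.Lex (α := ℕ) (N := ℕ) (· > ·) (· < ·)) :=
    Finsupp.Lex.wellFounded' (fun _ => not_lt_zero) wellFounded_lt wellFounded_lt
  suffices H : ∀ L : Finset (ℕ × R), ∀ S : Finset R[X], (∀ p ∈ S, p.eval 0 = 0) →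
      (∀ p ∈ S, p ≠ 0 → (p.natDegree, p.leadingCoeff) ∈ L) → NStmt S from
    H (S.image fun p => (p.natDegree, p.leadingCoeff)) S hS
      fun p hp _ => Finset.mem_image_of_mem _ hp
  intro L
  induction L using (InvImage.wf wt hwf).induction with
  | _ L ih =>
  intro S hS hL
  by_cases h0 : ∀ p ∈ S, p = 0
  · intro κ _ _ χ
    exact ⟨0, 1, one_pos, fun p hp => by simp [h0 p hp]⟩
  push Not at h0
  obtain ⟨p₁, hp₁, hmin⟩ := (S.filter (· ≠ 0)).exists_min_image natDegree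
    (by obtain ⟨p, hp, hp0⟩ := h0; exact ⟨p, Finset.mem_filter.2 ⟨hp, hp0⟩⟩)
  obtain ⟨hp₁S, hp₁0⟩ := Finset.mem_filter.1 hp₁
  refine nstep (p₁ := p₁) hS fun G => ?_
  set D := p₁.natDegree with hD
  set c₁ := p₁.leadingCoeff with hc₁
  let L' : Finset (ℕ × R) := (L.filter fun x => D < x.1) ∪
    (((L.filter fun x => D = x.1 ∧ x.2 ≠ c₁).image fun x => (D, x.2 - c₁)) ∪
      ((shiftFam S p₁ G).filter fun q => q.natDegree < D).image
        fun q => (q.natDegree, q.leadingCoeff))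
  have hmem : ∀ q ∈ shiftFam S p₁ G, ∃ p ∈ S, p ≠ 0 ∧ ∃ g,
      q = taylor g p - C (p.eval g) - p₁ := by
    intro q hq
    unfold shiftFam at hq
    obtain ⟨⟨p, g⟩, hx, rfl⟩ := Finset.mem_image.1 hq
    obtain ⟨h1, -⟩ := Finset.mem_product.1 hx
    obtain ⟨h2, h3⟩ := Finset.mem_filter.1 h1
    exact ⟨p, h2, h3, g, rfl⟩
  refine ih L' ⟨D, fun d hd => ?_, ?_⟩ _ (fun q hq => ?_) (fun q hq hq0 => ?_)
  · rw [wt_apply, wt_apply]
    congr 1
    ext ⟨n, a⟩
    simp only [L', Finset.mem_filter, Finset.mem_union, Finset.mem_image, Prod.mk.injEq]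
    constructor
    · rintro ⟨h | ⟨x, -, h, -⟩ | ⟨x, ⟨-, h1⟩, h, -⟩, rfl⟩
      · exact ⟨h.1, rfl⟩
      · omega
      · omega
    · rintro ⟨h, rfl⟩
      exact ⟨Or.inl ⟨h, hd⟩, rfl⟩
  · show wt L' D < wt L D
    rw [wt_apply, wt_apply]
    have h1 : (L'.filter fun x => D = x.1) ⊆
        (L.filter fun x => D = x.1 ∧ x.2 ≠ c₁).image fun x => (D, x.2 - c₁) := by
      rintro ⟨n, a⟩ hx
      simp only [L', Finset.mem_filter, Finset.mem_union] at hx
      obtain ⟨h | h | h, rfl⟩ := hx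
      · omega
      · exact h
      · simp only [Finset.mem_image, Finset.mem_filter, Prod.mk.injEq] at h
        obtain ⟨x, ⟨-, h1⟩, h, -⟩ := h
        omega
    refine lt_of_le_of_lt ((Finset.card_le_card h1).trans Finset.card_image_le)
      (Finset.card_lt_card ⟨fun x hx => ?_, fun h => ?_⟩)
    · rw [Finset.mem_filter] at hx ⊢
      exact ⟨hx.1, hx.2.1⟩
    · have := h (Finset.mem_filter.2 ⟨hL p₁ hp₁S hp₁0, rfl⟩)
      exact (Finset.mem_filter.1 this).2.2 rfl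
  · obtain ⟨p, hp, -, g, rfl⟩ := hmem q hq
    simp [taylor_eval, hS p₁ hp₁S]
  · by_cases hlow : q.natDegree < D
    · exact Finset.mem_union_right _ (Finset.mem_union_right _
        (Finset.mem_image_of_mem _ (Finset.mem_filter.2 ⟨hq, hlow⟩)))
    obtain ⟨p, hp, hp0, g, hq'⟩ := hmem q hq
    have hDp : D ≤ p.natDegree := hmin p (Finset.mem_filter.2 ⟨hp, hp0⟩)
    have hpos := natDegree_pos_of_eval_zero (hS p hp) hp0
    have hco : ∀ n, p.natDegree ≤ n → q.coeff n = p.coeff n - p₁.coeff n := fun n hn => by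
      rw [hq']; exact shift_coeff p g hpos p₁ hn
    have hle : q.natDegree ≤ p.natDegree := by
      rw [natDegree_le_iff_coeff_eq_zero]
      intro n hn
      rw [hco n hn.le, coeff_eq_zero_of_natDegree_lt hn,
        coeff_eq_zero_of_natDegree_lt (lt_of_le_of_lt hDp hn), sub_zero]
    rcases hDp.eq_or_lt with h | h
    · have h1 : q.natDegree = D := by omega
      have h2 : q.leadingCoeff = p.leadingCoeff - c₁ := by
        rw [leadingCoeff, h1, hco D h.ge, hc₁, leadingCoeff, leadingCoeff, ← h]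
      refine Finset.mem_union_right _ (Finset.mem_union_left _ (Finset.mem_image.2
        ⟨(p.natDegree, p.leadingCoeff), Finset.mem_filter.2 ⟨hL p hp hp0, h, ?_⟩, ?_⟩))
      · intro h3
        apply hq0
        rw [← leadingCoeff_eq_zero, h2]
        exact sub_eq_zero.2 h3
      · rw [h1, h2]
    · have h2 : q.coeff p.natDegree = p.leadingCoeff := by
        rw [hco _ le_rfl, coeff_eq_zero_of_natDegree_lt h, sub_zero, leadingCoeff]
      have h1 : q.natDegree = p.natDegree :=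
        le_antisymm hle (le_natDegree_of_ne_zero (by rw [h2]; simpa using hp0))
      refine Finset.mem_union_left _ (Finset.mem_filter.2 ⟨?_, by simpa [h1] using h⟩)
      rw [leadingCoeff, h1, h2]
      exact hL p hp hp0

end Pool.Agent.Work.MP_5597c5_co.Hedge
end

-- merged part: Pool.Agent.Work.MP_5597c5_co.Hedge.Scale
section
/-!
Colour focusing with one scale per step.
-/

namespace Pool.Agent.Work.MP_5597c5_co.Hedge

open Polynomial Pool.Agent.Lib.PolyVdW

variable {R : Type} [CommRing R]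

/-- The sum of `n h * T h` over `i ≤ h < j`. -/
def sm (T : ℕ → R) (n : ℕ → ℕ) (i j : ℕ) : R := ∑ h ∈ Finset.Ico i j, (n h : R) * T h

theorem sm_update (T : ℕ → R) (n : ℕ → ℕ) {i j : ℕ} (hij : i ≤ j) (l : ℕ) :
    sm T (Function.update n j l) i (j + 1) = sm T n i j + (l : R) * T j := by
  unfold sm
  rw [Finset.sum_Ico_succ_top hij, Function.update_self]
  congr 1
  refine Finset.sum_congr rfl fun h hh => ?_
  rw [Function.update_of_ne (Finset.mem_Ico.1 hh).2.ne]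

theorem sm_self (T : ℕ → R) (n : ℕ → ℕ) (j : ℕ) : sm T n j j = 0 := by simp [sm]

theorem sfocus (t u : R) (T : ℕ → R) {G : Finset R[X]} (hG : ∀ g ∈ G, g.eval 0 = 0)
    {κ : Type} [Finite κ] [Nonempty κ] (s : ℕ) :
    ∀ χ : R → κ, ∃ (j : ℕ) (n : ℕ → ℕ) (B : R) (K : Finset κ) (ι : κ → ℕ),
      (1 ≤ j ∧ (∀ h, 0 < n h) ∧ ∀ c ∈ K, 1 ≤ ι c ∧ ι c < j) ∧
      (∀ c ∈ K, ∀ g ∈ G, χ (T 0 + u * sm T n 1 j + t * B - u * sm T n (ι c) j -
        t * g.eval (sm T n (ι c) j)) = c) ∧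
      (K.card = s ∨ χ (T 0 + u * sm T n 1 j + t * B) ∈ K) := by
  classical
  induction s with
  | zero =>
    exact fun χ => ⟨1, fun _ => 1, 0, ∅, fun _ => 1, ⟨le_rfl, fun _ => one_pos, by simp⟩,
      by simp, by simp⟩
  | succ s ih =>
    let Ω : Type := {ω : ℕ × (ℕ → ℕ) × R × Finset κ × (κ → ℕ) × κ //
      1 ≤ ω.1 ∧ (∀ h, 0 < ω.2.1 h) ∧ ∀ c ∈ ω.2.2.2.1, 1 ≤ ω.2.2.2.2.1 c ∧ ω.2.2.2.2.1 c < ω.1}
    let P : (R → κ) → Ω → Prop := fun χ ω =>
      (∀ c ∈ ω.1.2.2.2.1, ∀ g ∈ G, χ (T 0 + u * sm T ω.1.2.1 1 ω.1.1 + t * ω.1.2.2.1 -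
        u * sm T ω.1.2.1 (ω.1.2.2.2.2.1 c) ω.1.1 -
        t * g.eval (sm T ω.1.2.1 (ω.1.2.2.2.2.1 c) ω.1.1)) = c) ∧
      χ (T 0 + u * sm T ω.1.2.1 1 ω.1.1 + t * ω.1.2.2.1) = ω.1.2.2.2.2.2 ∧
      (ω.1.2.2.2.1.card = s ∨ ω.1.2.2.2.2.2 ∈ ω.1.2.2.2.1)
    obtain ⟨F, f, hf⟩ := compact_colourings P (by
      rintro χ ⟨⟨j, n, B, K, ι, c⟩, hω⟩ ⟨h1, h2, h3⟩
      refine ⟨insert (T 0 + u * sm T n 1 j + t * B) ((K ×ˢ G).image fun x =>
        T 0 + u * sm T n 1 j + t * B - u * sm T n (ι x.1) j - t * x.2.eval (sm T n (ι x.1) j)),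
        fun χ' h => ⟨?_, ?_, h3⟩⟩
      · intro i hi p hp
        exact (h _ (Finset.mem_insert_of_mem
          (Finset.mem_image.2 ⟨(i, p), Finset.mem_product.2 ⟨hi, hp⟩, rfl⟩))).trans
          (h1 i hi p hp)
      · exact (h _ (Finset.mem_insert_self _ _)).trans h2) (by
      intro χ
      obtain ⟨j, n, B, K, ι, h1, h2, h3⟩ := ih χ
      exact ⟨⟨(j, n, B, K, ι, χ (T 0 + u * sm T n 1 j + t * B)), h1⟩, h2, rfl, h3⟩)
    have _ : Fintype κ := Fintype.ofFinite κ
    set j : (F → κ) → ℕ := fun τ => (f τ).1.1 with hj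
    set n : (F → κ) → ℕ → ℕ := fun τ => (f τ).1.2.1 with hn
    set B : (F → κ) → R := fun τ => (f τ).1.2.2.1 with hB
    set K : (F → κ) → Finset κ := fun τ => (f τ).1.2.2.2.1 with hK
    set ι : (F → κ) → κ → ℕ := fun τ => (f τ).1.2.2.2.2.1 with hι
    set c : (F → κ) → κ := fun τ => (f τ).1.2.2.2.2.2 with hc
    have har : ∀ τ, 1 ≤ j τ ∧ (∀ h, 0 < n τ h) ∧ ∀ i ∈ K τ, 1 ≤ ι τ i ∧ ι τ i < j τ :=
      fun τ => (f τ).2
    have hf' : ∀ (χ : R → κ) (τ : F → κ), (fun x : F => χ x) = τ →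
        (∀ i ∈ K τ, ∀ g ∈ G, χ (T 0 + u * sm T (n τ) 1 (j τ) + t * B τ -
          u * sm T (n τ) (ι τ i) (j τ) - t * g.eval (sm T (n τ) (ι τ i) (j τ))) = i) ∧
        χ (T 0 + u * sm T (n τ) 1 (j τ) + t * B τ) = c τ ∧ ((K τ).card = s ∨ c τ ∈ K τ) := by
      rintro χ τ rfl
      exact hf χ
    clear_value j n B K ι c
    clear hf f P Ω hj hn hB hK hι hc
    let D : Finset (R × R) := Finset.univ.biUnion fun τ =>
      insert (0, T (j τ)) ((K τ).image fun i => (sm T (n τ) (ι τ i) (j τ), T (j τ)))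
    have hD0 : ∀ τ, ((0 : R), T (j τ)) ∈ D := fun τ =>
      Finset.mem_biUnion.2 ⟨τ, Finset.mem_univ _, Finset.mem_insert_self _ _⟩
    have hDe : ∀ τ, ∀ i ∈ K τ, (sm T (n τ) (ι τ i) (j τ), T (j τ)) ∈ D := fun τ i hi =>
      Finset.mem_biUnion.2 ⟨τ, Finset.mem_univ _,
        Finset.mem_insert_of_mem (Finset.mem_image_of_mem _ hi)⟩
    intro χ
    obtain ⟨B', l, hl, hcol⟩ := nstmt_all ((G ×ˢ D).image fun x =>
      C (x.1.eval x.2.1) - x.1.comp (C x.2.1 + X * C x.2.2)) (by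
        intro q hq
        obtain ⟨x, -, rfl⟩ := Finset.mem_image.1 hq
        simp [eval_comp]) (F → κ) (fun B' x => χ (t * B' + x))
    set τ : F → κ := fun x => χ (t * B' + x) with hτ
    have hshift : ∀ g ∈ G, ∀ d₁ d₂ : R, (d₁, d₂) ∈ D →
        (fun x : F => χ (t * (B' + (g.eval d₁ - g.eval (d₁ + (l : R) * d₂))) + x)) = τ := by
      intro g hg d₁ d₂ hd
      have := hcol (C (g.eval d₁) - g.comp (C d₁ + X * C d₂)) (Finset.mem_image.2
        ⟨(g, (d₁, d₂)), Finset.mem_product.2 ⟨hg, hd⟩, rfl⟩)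
      simpa only [eval_comp, eval_sub, eval_C, eval_add, eval_mul, eval_X] using this
    have h0 := hf' (fun x => χ (t * B' + x)) τ rfl
    by_cases hcK : c τ ∈ K τ
    · refine ⟨j τ, n τ, B' + B τ, K τ, ι τ, har τ, ?_, ?_⟩
      · intro i hi g hg
        refine Eq.trans ?_ (h0.1 i hi g hg)
        congr 1
        ring
      · right
        have : χ (T 0 + u * sm T (n τ) 1 (j τ) + t * (B' + B τ)) = c τ := by
          refine Eq.trans ?_ h0.2.1
          congr 1
          ring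
        rw [this]
        exact hcK
    · have hcard : (K τ).card = s := h0.2.2.resolve_right hcK
      have hne : ∀ i ∈ K τ, i ≠ c τ := fun i hi h => hcK (h ▸ hi)
      refine ⟨j τ + 1, Function.update (n τ) (j τ) l, B' + B τ, insert (c τ) (K τ),
        fun i => if i = c τ then j τ else ι τ i, ⟨by omega, fun h => ?_, fun i hi => ?_⟩, ?_, ?_⟩
      · by_cases hh : h = j τ
        · rw [hh, Function.update_self]; exact hl
        · rw [Function.update_of_ne hh]; exact (har τ).2.1 h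
      · rcases Finset.mem_insert.1 hi with rfl | hi
        · simp only [if_true]
          exact ⟨(har τ).1, Nat.lt_succ_self _⟩
        · simp only [if_neg (hne i hi)]
          have := (har τ).2.2 i hi
          omega
      · intro i hi g hg
        rcases Finset.mem_insert.1 hi with rfl | hi
        · simp only [if_true]
          have h1 := (hf' (fun x => χ (t * (B' + (g.eval 0 - g.eval (0 + (l : R) * T (j τ)))) + x))
            τ (hshift g hg _ _ (hD0 τ))).2.1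
          refine Eq.trans ?_ h1
          congr 1
          rw [sm_update T _ (har τ).1, sm_update T _ le_rfl, sm_self, hG g hg]
          ring
        · simp only [if_neg (hne i hi)]
          have h1 := (hf' (fun x => χ (t * (B' + (g.eval (sm T (n τ) (ι τ i) (j τ)) -
            g.eval (sm T (n τ) (ι τ i) (j τ) + (l : R) * T (j τ)))) + x))
            τ (hshift g hg _ _ (hDe τ i hi))).1 i hi g hg
          refine Eq.trans ?_ h1
          congr 1
          rw [sm_update T _ (har τ).1, sm_update T _ ((har τ).2.2 i hi).2.le]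
          ring
      · left
        rw [Finset.card_insert_of_notMem hcK, hcard]

theorem scale_main (t u : R) (T : ℕ → R) {G : Finset R[X]} (hG : ∀ g ∈ G, g.eval 0 = 0)
    {κ : Type} [Finite κ] [Nonempty κ] (χ : R → κ) :
    ∃ (i j : ℕ) (n : ℕ → ℕ) (B : R), (1 ≤ i ∧ i < j ∧ ∀ h, 0 < n h) ∧ ∀ g ∈ G,
      χ (T 0 + u * sm T n 1 j + t * B - u * sm T n i j - t * g.eval (sm T n i j)) =
        χ (T 0 + u * sm T n 1 j + t * B) := by
  classical
  have _ : Fintype κ := Fintype.ofFinite κ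
  obtain ⟨j, n, B, K, ι, h1, h2, h3⟩ := sfocus t u T hG (Fintype.card κ + 1) χ
  have hK : χ (T 0 + u * sm T n 1 j + t * B) ∈ K := h3.resolve_left fun h => by
    have := K.card_le_univ
    omega
  exact ⟨ι _, j, n, B, ⟨(h1.2.2 _ hK).1, (h1.2.2 _ hK).2, h1.2.1⟩, h2 _ hK⟩

/-- A tower of positive integers: every bounded combination of later terms divides each
earlier term. -/
theorem tower (a M J : ℕ) (ha : 0 < a) : ∃ σ : ℕ → ℕ, (∀ h, 0 < σ h) ∧
    ∀ (i j : ℕ) (n : ℕ → ℕ), i < j → j ≤ J → (∀ h, 0 < n h) → (∀ h < j, n h ≤ M) →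
      ∀ h' < i, a * ∑ h ∈ Finset.Ico i j, n h * σ h ∣ σ h' := by
  classical
  let ps : ℕ → ℕ := fun k => Nat.rec 0 (fun _ q => q + a * (M * q).factorial) k
  let ρ : ℕ → ℕ := fun k => a * (M * ps k).factorial
  have hps : ∀ k, ∑ m ∈ Finset.range k, ρ m = ps k := by
    intro k
    induction k with
    | zero => rfl
    | succ k ih => rw [Finset.sum_range_succ, ih]
  have hρ : ∀ k, 0 < ρ k := fun k => Nat.mul_pos ha (Nat.factorial_pos _)
  refine ⟨fun h => ρ (J - h), fun h => hρ _, fun i j n hij hj hn hM h' hh' => ?_⟩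
  refine Nat.mul_dvd_mul_left a (Nat.dvd_factorial ?_ ?_)
  · exact Finset.sum_pos (fun h _ => Nat.mul_pos (hn h) (hρ _))
      ⟨i, Finset.mem_Ico.2 ⟨le_rfl, hij⟩⟩
  · calc ∑ h ∈ Finset.Ico i j, n h * ρ (J - h)
        ≤ ∑ h ∈ Finset.Ico i j, M * ρ (J - h) :=
          Finset.sum_le_sum fun h hh =>
            Nat.mul_le_mul_right _ (hM h (Finset.mem_Ico.1 hh).2)
      _ = M * ∑ m ∈ (Finset.Ico i j).image (fun h => J - h), ρ m := by
          rw [Finset.mul_sum, Finset.sum_image]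
          intro x hx y hy hxy
          have h1 := (Finset.mem_Ico.1 hx).2
          have h2 := (Finset.mem_Ico.1 hy).2
          simp only at hxy
          omega
      _ ≤ M * ps (J - h') := by
          rw [← hps]
          refine Nat.mul_le_mul_left _ (Finset.sum_le_sum_of_subset fun m hm => ?_)
          obtain ⟨h, hh, rfl⟩ := Finset.mem_image.1 hm
          have h1 := Finset.mem_Ico.1 hh
          rw [Finset.mem_range]
          omega

end Pool.Agent.Work.MP_5597c5_co.Hedge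
end

-- merged part: Pool.Agent.Work.MP_5597c5_co.Hedge.Deform
section
/-!
Specialisation of the formal scales, and the deformation of the gap.
-/

namespace Pool.Agent.Work.MP_5597c5_co.Hedge

open Polynomial Pool.Agent.Lib.PolyVdW

/-- Finitely many templates whose constant terms satisfy the divisibility condition. -/
theorem templates {A : Type} [CommRing A] (t : A) (a c' : ℤ) (ha : a ≠ 0) {G : Finset A[X]}
    (hG : ∀ g ∈ G, g.eval 0 = 0) (κ : Type) [Finite κ] [Nonempty κ] :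
    ∃ (ι : Type) (_ : Finite ι) (v : ι → A) (E : (ι → κ) → ℕ) (k : (ι → κ) → ℤ)
      (B : (ι → κ) → A) (c : (ι → κ) → κ), (∀ τ, 0 < E τ) ∧
      ∀ (χ : A → κ) (τ : ι → κ), (fun x => χ (v x)) = τ →
        χ (((a * E τ * k τ : ℤ) : A) + t * B τ) = c τ ∧ ∀ g ∈ G,
          χ (((a * E τ * k τ : ℤ) : A) + t * B τ - ((a * c' : ℤ) : A) * (E τ : A) -
            t * g.eval (E τ : A)) = c τ := by
  classical
  let R : Type := MvPolynomial ℕ A
  let ψ : A →+* R := algebraMap A R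
  let T : ℕ → R := fun h => MvPolynomial.X h
  let u : R := ((a * c' : ℤ) : R)
  let Ω : Type := {ω : ℕ × ℕ × (ℕ → ℕ) × R × κ // 1 ≤ ω.1 ∧ ω.1 < ω.2.1 ∧ ∀ h, 0 < ω.2.2.1 h}
  let P : (R → κ) → Ω → Prop := fun χ ω =>
    χ (T 0 + u * sm T ω.1.2.2.1 1 ω.1.2.1 + ψ t * ω.1.2.2.2.1) = ω.1.2.2.2.2 ∧
    ∀ g ∈ G, χ (T 0 + u * sm T ω.1.2.2.1 1 ω.1.2.1 + ψ t * ω.1.2.2.2.1 -
      u * sm T ω.1.2.2.1 ω.1.1 ω.1.2.1 -
      ψ t * (g.map ψ).eval (sm T ω.1.2.2.1 ω.1.1 ω.1.2.1)) = ω.1.2.2.2.2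
  obtain ⟨F, f, hf⟩ := compact_colourings P (by
    rintro χ ⟨⟨i, j, n, B, c⟩, hω⟩ ⟨h1, h2⟩
    refine ⟨insert (T 0 + u * sm T n 1 j + ψ t * B) (G.image fun g =>
      T 0 + u * sm T n 1 j + ψ t * B - u * sm T n i j - ψ t * (g.map ψ).eval (sm T n i j)),
      fun χ' h => ⟨?_, fun g hg => ?_⟩⟩
    · exact (h _ (Finset.mem_insert_self _ _)).trans h1
    · exact (h _ (Finset.mem_insert_of_mem (Finset.mem_image.2 ⟨g, hg, rfl⟩))).trans
        (h2 g hg)) (by
    intro χ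
    obtain ⟨i, j, n, B, h1, h2⟩ := scale_main (ψ t) u T (G := G.image fun g => g.map ψ) (by
      intro q hq
      obtain ⟨g, hg, rfl⟩ := Finset.mem_image.1 hq
      rw [← map_zero ψ, eval_map, eval₂_at_apply, hG g hg]) χ
    exact ⟨⟨(i, j, n, B, χ (T 0 + u * sm T n 1 j + ψ t * B)), h1⟩, rfl,
      fun g hg => h2 _ (Finset.mem_image_of_mem _ hg)⟩)
  have _ : Fintype κ := Fintype.ofFinite κ
  set i : (F → κ) → ℕ := fun τ => (f τ).1.1 with hi
  set j : (F → κ) → ℕ := fun τ => (f τ).1.2.1 with hj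
  set n : (F → κ) → ℕ → ℕ := fun τ => (f τ).1.2.2.1 with hn
  set B : (F → κ) → R := fun τ => (f τ).1.2.2.2.1 with hB
  set c : (F → κ) → κ := fun τ => (f τ).1.2.2.2.2 with hc
  have har : ∀ τ, 1 ≤ i τ ∧ i τ < j τ ∧ ∀ h, 0 < n τ h := fun τ => (f τ).2
  have hf' : ∀ (χ : R → κ) (τ : F → κ), (fun x : F => χ x) = τ →
      χ (T 0 + u * sm T (n τ) 1 (j τ) + ψ t * B τ) = c τ ∧
      ∀ g ∈ G, χ (T 0 + u * sm T (n τ) 1 (j τ) + ψ t * B τ - u * sm T (n τ) (i τ) (j τ) -
        ψ t * (g.map ψ).eval (sm T (n τ) (i τ) (j τ))) = c τ := by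
    rintro χ τ rfl
    exact hf χ
  clear_value i j n B c
  clear hf f P Ω hi hj hn hB hc
  let J : ℕ := Finset.univ.sup j
  let M : ℕ := Finset.univ.sup fun τ => (Finset.range J).sup (n τ)
  have hJ : ∀ τ, j τ ≤ J := fun τ => Finset.le_sup (Finset.mem_univ τ)
  have hM : ∀ τ, ∀ h < j τ, n τ h ≤ M := fun τ h hh =>
    (Finset.le_sup (f := n τ) (Finset.mem_range.2 (lt_of_lt_of_le hh (hJ τ)))).trans
      (Finset.le_sup (f := fun τ => (Finset.range J).sup (n τ)) (Finset.mem_univ τ))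
  obtain ⟨σ, hσ, hdiv⟩ := tower a.natAbs M J (Int.natAbs_pos.2 ha)
  let φ : R →ₐ[A] A := MvPolynomial.aeval fun h => (σ h : A)
  let s : (F → κ) → ℕ → ℕ → ℕ := fun τ p q => ∑ h ∈ Finset.Ico p q, n τ h * σ h
  have hφT : ∀ h, φ (T h) = (σ h : A) := fun h => MvPolynomial.aeval_X _ _
  have hφψ : ∀ y, φ (ψ y) = y := fun y => φ.commutes y
  have hφs : ∀ τ p q, φ (sm T (n τ) p q) = (s τ p q : A) := by
    intro τ p q
    simp only [sm, s, map_sum, map_mul, map_natCast, hφT, Nat.cast_sum, Nat.cast_mul]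
  have hφu : φ u = ((a * c' : ℤ) : A) := map_intCast φ _
  have hφg : ∀ (g : A[X]) (y : R), φ ((g.map ψ).eval y) = g.eval (φ y) := by
    intro g y
    rw [eval_map_algebraMap, ← aeval_algHom_apply, coe_aeval_eq_eval]
  have hk : ∀ τ, ∃ k : ℤ, (σ 0 : ℤ) + a * c' * s τ 1 (j τ) = a * s τ (i τ) (j τ) * k := by
    intro τ
    have h1 : ∀ h' < i τ, a * (s τ (i τ) (j τ) : ℤ) ∣ (σ h' : ℤ) := by
      intro h' hh'
      have := hdiv (i τ) (j τ) (n τ) (har τ).2.1 (hJ τ) (har τ).2.2 (hM τ) h' hh'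
      rw [← Int.natAbs_dvd_natAbs, Int.natAbs_mul, Int.natAbs_natCast, Int.natAbs_natCast]
      exact this
    have h2 : s τ 1 (j τ) = s τ 1 (i τ) + s τ (i τ) (j τ) :=
      (Finset.sum_Ico_consecutive _ (har τ).1 (har τ).2.1.le).symm
    have h3 : a * (s τ (i τ) (j τ) : ℤ) ∣ (s τ 1 (i τ) : ℤ) := by
      have h5 : (s τ 1 (i τ) : ℤ) = ∑ h ∈ Finset.Ico 1 (i τ), (n τ h : ℤ) * (σ h : ℤ) := by
        simp only [s, Nat.cast_sum, Nat.cast_mul]
      rw [h5]
      exact Finset.dvd_sum fun h hh => (h1 h (Finset.mem_Ico.1 hh).2).mul_left _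
    have h4 : a * (s τ (i τ) (j τ) : ℤ) ∣ (σ 0 : ℤ) + a * c' * s τ 1 (j τ) := by
      rw [h2, Nat.cast_add, mul_add]
      exact dvd_add (h1 0 (har τ).1) (dvd_add (h3.mul_left _) ⟨c', by ring⟩)
    exact h4
  choose k hk using hk
  refine ⟨F, inferInstance, fun x => φ x, fun τ => s τ (i τ) (j τ), k, fun τ => φ (B τ), c,
    fun τ => ?_, fun χ τ hτ => ?_⟩
  · exact Finset.sum_pos (fun h _ => Nat.mul_pos ((har τ).2.2 h) (hσ _))
      ⟨i τ, Finset.mem_Ico.2 ⟨le_rfl, (har τ).2.1⟩⟩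
  · obtain ⟨h1, h2⟩ := hf' (fun x => χ (φ x)) τ hτ
    have hz : φ (T 0 + u * sm T (n τ) 1 (j τ) + ψ t * B τ) =
        ((a * (s τ (i τ) (j τ) : ℕ) * k τ : ℤ) : A) + t * φ (B τ) := by
      rw [← hk τ, map_add, map_add, map_mul, map_mul, hφT, hφu, hφs, hφψ]
      push_cast
      ring
    refine ⟨hz ▸ h1, fun g hg => ?_⟩
    have h3 := h2 g hg
    rw [map_sub, map_sub, hz, map_mul, map_mul, hφu, hφs, hφψ, hφg, hφs] at h3
    exact h3

theorem deform {m : ℚ[X][X]} (hGen : Generic m) (hSep : Sep m) (a c' : ℤ) (ha : a ≠ 0)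
    (hm : ∀ w : ℚ[X], (m.eval w).eval 0 = a * w.eval 0) {G : Finset ℚ[X][X]}
    (hG : ∀ g ∈ G, g.eval 0 = 0) {κ : Type} [Finite κ] [Nonempty κ] (χ : ℚ[X] → κ) :
    ∃ (k : ℤ) (x w : ℚ[X]), w ≠ 0 ∧ m.eval w ≠ 0 ∧ ∀ g ∈ G,
      χ (m.eval w * ((k : ℚ[X]) + X * x) - ((a * c' : ℤ) : ℚ[X]) * w - X * g.eval w) =
        χ (m.eval w * ((k : ℚ[X]) + X * x)) := by
  classical
  obtain ⟨ι, _, v, E, k, B, c, hE, h⟩ := templates (X : ℚ[X]) a c' ha hG κ
  have _ : Fintype κ := Fintype.ofFinite κ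
  have _ : Fintype ι := Fintype.ofFinite ι
  let H : ℚ[X][X] → ℚ[X][X] := fun g => C ((a * c' : ℤ) : ℚ[X]) * X + C X * g
  have hH : ∀ g w, (H g).eval w = ((a * c' : ℤ) : ℚ[X]) * w + X * g.eval w := fun g w => by
    simp only [H, eval_add, eval_mul, eval_C, eval_X]
  let D : Finset ℚ[X] := Finset.univ.image fun τ => (E τ : ℚ[X])
  have hev : ∀ τ, (m.eval (E τ : ℚ[X])).eval 0 ≠ 0 := fun τ => by
    rw [hm, eval_natCast]
    exact mul_ne_zero (Int.cast_ne_zero.2 ha) (Nat.cast_ne_zero.2 (hE τ).ne')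
  have hT : (∏ τ, m.eval (E τ : ℚ[X])).eval 0 ≠ 0 := by
    rw [eval_prod]
    exact Finset.prod_ne_zero_iff.2 fun τ _ => hev τ
  obtain ⟨B', l, hB', hl, hgen, hcol, hcon⟩ := stmt_all hGen hSep
    (T := ∏ τ, m.eval (E τ : ℚ[X])) (fun h0 => hT (by rw [h0, eval_zero]))
    ((G ×ˢ D).image fun x => C ((H x.1).eval x.2) - taylor x.2 (H x.1))
    (by
      intro q hq
      obtain ⟨x, -, rfl⟩ := Finset.mem_image.1 hq
      simp only [eval_sub, eval_C, taylor_eval, zero_add, sub_self])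
    (ι → κ) X ⟨X_ne_zero, fun q hq hqT hqX => hT (by
      have h1 : (X : ℚ[X]) ∣ q := hq.irreducible.dvd_symm irreducible_X hqX
      rw [← coeff_zero_eq_eval_zero, ← X_dvd_iff]
      exact h1.trans hqT)⟩ D
    (fun τ => {((E τ : ℚ[X]), C (((a * E τ * k τ : ℤ) : ℚ[X]) + X * B τ))})
    (fun τ => ⟨fun γ hγ => by
      rw [Finset.mem_singleton.1 hγ]
      exact Or.inl (Finset.dvd_prod_of_mem (fun τ => m.eval (E τ : ℚ[X])) (Finset.mem_univ τ)),
      fun γ hγ γ' hγ' _ => by rw [Finset.mem_singleton.1 hγ, Finset.mem_singleton.1 hγ']⟩)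
    (fun B' x => χ (B' + v x))
  set τ : ι → κ := fun x => χ (B' + v x) with hτ
  have hDe : (E τ : ℚ[X]) ∈ D := Finset.mem_image_of_mem _ (Finset.mem_univ _)
  obtain ⟨x, hx⟩ := hcon _ (Finset.mem_singleton_self _)
  simp only [eval_C] at hx
  have hl0 : l.eval 0 = 0 := by rw [← coeff_zero_eq_eval_zero, ← X_dvd_iff]; exact hl
  have hB0 : B'.eval 0 = 0 := by rw [← coeff_zero_eq_eval_zero, ← X_dvd_iff]; exact hB'
  have hx0 : x.coeff 0 = (k τ : ℚ) := by
    have h1 := congrArg (eval 0) hx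
    rw [eval_mul, hm] at h1
    simp only [eval_add, eval_mul, eval_X, zero_mul, add_zero, hB0, hl0, zero_add,
      eval_intCast, eval_natCast] at h1
    push_cast at h1
    rw [coeff_zero_eq_eval_zero]
    exact (mul_left_cancel₀ (mul_ne_zero (Int.cast_ne_zero.2 ha)
      (Nat.cast_ne_zero.2 (hE τ).ne')) h1).symm
  have hxx : x = (k τ : ℚ[X]) + X * x.divX := by
    conv_lhs => rw [← X_mul_divX_add x, hx0]
    rw [add_comm, map_intCast]
  refine ⟨k τ, x.divX, (E τ : ℚ[X]) + l, (hgen _ hDe).1, (hgen _ hDe).2.1, fun g hg => ?_⟩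
  have h1 := hcol (C ((H g).eval (E τ : ℚ[X])) - taylor (E τ : ℚ[X]) (H g)) (Finset.mem_image.2
    ⟨(g, (E τ : ℚ[X])), Finset.mem_product.2 ⟨hg, hDe⟩, rfl⟩)
  simp only [eval_sub, taylor_eval, eval_C] at h1
  have h2 := (h (fun x => χ (B' + ((H g).eval (E τ : ℚ[X]) -
    (H g).eval (l + (E τ : ℚ[X]))) + x)) τ h1).2 g hg
  have h3 := (h (fun x => χ (B' + x)) τ rfl).1
  rw [← hxx, ← hx]
  refine Eq.trans ?_ (h2.trans h3.symm)
  congr 1
  rw [hH, hH, add_comm l]
  ring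

end Pool.Agent.Work.MP_5597c5_co.Hedge
end

-- merged part: Pool.Agent.Work.MP_5597c5_co.Hedge.Core
section
/-!
The pattern `Q(d) x, Q(d) (x - p(d))` over the integers, for `Q` with a simple zero at the origin
and polynomials `p` with one common constant term.
-/

namespace Pool.Agent.Work.MP_5597c5_co.Hedge

open Polynomial Filter Pool.Agent.Lib.PolyVdW

theorem core (Q₁ : ℤ[X]) (hQ0 : Q₁.eval 0 ≠ 0) (c' : ℤ) (S : Finset ℤ[X])
    (hS : ∀ p ∈ S, p.eval 0 = c') (N : ℕ) (hN : 0 < N) {κ : Type} [Finite κ] (χ : ℤ → κ) :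
    ∃ x d : ℤ, d ≠ 0 ∧ (N : ℤ) ∣ d ∧ (X * Q₁).eval d ≠ 0 ∧
      ∀ p ∈ S, χ ((X * Q₁).eval d * (x - p.eval d)) = χ ((X * Q₁).eval d * x) := by
  classical
  have _ : Nonempty κ := ⟨χ 0⟩
  have hQ₁ : Q₁ ≠ 0 := fun h => hQ0 (by rw [h, eval_zero])
  set Q : ℤ[X] := X * Q₁ with hQdef
  have hQ : Q ≠ 0 := mul_ne_zero X_ne_zero hQ₁
  set m : ℚ[X][X] := X * dil Q₁ with hm
  have hmw : ∀ w, m.eval w = w * aeval (X * w) Q₁ := fun w => by
    rw [hm, eval_mul, eval_X, eval_dil]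
  have hmQ : ∀ w, X * m.eval w = aeval (X * w) Q := fun w => by
    rw [hQdef, hmw, map_mul, aeval_X]
    ring
  have hmap : ∀ (B : Type) [CommRing B] [IsDomain B] [CharZero B] (φ : ℚ[X] →+* B),
      m.map φ ≠ 0 := by
    intro B _ _ _ φ
    rw [hm, Polynomial.map_mul, map_X]
    refine mul_ne_zero X_ne_zero fun h => hQ0 ?_
    have h1 : ((dil Q₁).map φ).eval (φ 0) = 0 := by rw [h, eval_zero]
    rw [eval_map, eval₂_at_apply, eval_dil, mul_zero, ← coeff_zero_eq_aeval_zero'] at h1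
    rw [← coeff_zero_eq_eval_zero]
    simpa using h1
  have hG : Generic m := generic_of_primitive (by simpa using hmap _ (RingHom.id _))
    fun q hq => by
      have _ : (Ideal.span {q}).IsPrime := (Ideal.span_singleton_prime hq.ne_zero).2 hq
      have _ : CharZero (ℚ[X] ⧸ Ideal.span {q}) := algebraRat.charZero _
      exact hmap _ _
  have hSep : Sep m := by
    obtain ⟨ρ, hρ0, hρ⟩ := exists_diff_poly (Q := Q.map (algebraMap ℤ ℚ))
      ((Polynomial.map_ne_zero_iff (algebraMap ℤ ℚ).injective_int).2 hQ)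
    intro a b hab
    refine ⟨aeval (X * (a - b)) ρ, ?_, fun w q _ h1 h2 => ?_⟩
    · rw [← comp_eq_aeval, Ne, comp_eq_zero_iff]
      rintro (h | ⟨-, h⟩)
      · exact hρ0 h
      · simp only [mul_coeff_zero, coeff_X_zero, zero_mul, map_zero, mul_eq_zero, X_ne_zero,
          false_or] at h
        exact hab (sub_eq_zero.1 h)
    · let φ := Ideal.Quotient.mkₐ ℚ (Ideal.span {q})
      have hφ : ∀ y, φ y = 0 ↔ q ∣ y := fun y => by
        rw [← Ideal.mem_span_singleton, ← Ideal.Quotient.eq_zero_iff_mem]; rfl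
      have hroot : ∀ u, q ∣ m.eval u → aeval (φ (X * u)) (Q.map (algebraMap ℤ ℚ)) = 0 := by
        intro u hu
        rw [aeval_algHom_apply, hφ, aeval_map_algebraMap, ← hmQ]
        exact hu.mul_left _
      have := hρ _ _ _ (hroot _ h1) (hroot _ h2)
      rw [← map_sub, aeval_algHom_apply, hφ] at this
      have e : X * (a + w) - X * (b + w) = X * (a - b) := by ring
      rwa [e] at this
  have hsplit : ∀ (p : ℤ[X]) (w : ℚ[X]), aeval (X * w) p =
      ((p.eval 0 : ℤ) : ℚ[X]) + X * w * aeval (X * w) p.divX := by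
    intro p w
    conv_lhs => rw [← X_mul_divX_add p, coeff_zero_eq_eval_zero]
    rw [map_add, map_mul, aeval_X, aeval_C, add_comm]
    simp
  have hm0 : ∀ w : ℚ[X], (m.eval w).eval 0 = ((Q₁.eval 0 : ℤ) : ℚ) * w.eval 0 := by
    intro w
    rw [hmw, hsplit]
    simp only [eval_mul, eval_add, eval_X, zero_mul, add_zero, eval_intCast]
    ring
  let val : ℚ[X] → ℕ → ℤ := fun y n => ((X * y).eval (n.factorial : ℚ)).num
  have hcol : ∀ y : ℚ[X], ∃ c : κ, ∀ᶠ n in (hyperfilter ℕ : Filter ℕ), χ (val y n) = c := by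
    intro y
    obtain ⟨c, hc⟩ := ((hyperfilter ℕ).map fun n => χ (val y n)).eq_pure_of_finite
    refine ⟨c, ?_⟩
    have : {c} ∈ (hyperfilter ℕ).map fun n => χ (val y n) := by rw [hc]; simp
    exact this
  choose χ' hχ' using hcol
  let gp : ℤ[X] → ℚ[X][X] := fun p => X ^ 2 * dil (Q₁ * p).divX
  obtain ⟨k, x, w, hw, hmw0, h⟩ := deform hG hSep (Q₁.eval 0) c' hQ0 hm0 (G := S.image gp)
    (by
      intro q hq
      obtain ⟨p, -, rfl⟩ := Finset.mem_image.1 hq
      simp [gp]) χ'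
  set W : ℚ[X] := m.eval w * ((k : ℚ[X]) + X * x) with hW
  let V : ℤ[X] → ℚ[X] := fun p =>
    W - ((Q₁.eval 0 * c' : ℤ) : ℚ[X]) * w - X * (gp p).eval w
  have hev : ∀ᶠ n : ℕ in (hyperfilter ℕ : Filter ℕ),
      ((∃ k : ℤ, (X * x).eval (n.factorial : ℚ) = (k : ℚ)) ∧
      (∃ k : ℤ, (X * (C (N : ℚ)⁻¹ * w)).eval (n.factorial : ℚ) = (k : ℚ)) ∧
      (X * w).eval (n.factorial : ℚ) ≠ 0 ∧ (X * m.eval w).eval (n.factorial : ℚ) ≠ 0) ∧
      χ (val W n) = χ' W ∧ ∀ p ∈ S, χ (val (V p) n) = χ' (V p) := by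
    refine Eventually.and (Eventually.filter_mono Nat.hyperfilter_le_atTop ?_)
      ((hχ' _).and ((eventually_all_finset S).2 fun p _ => hχ' _))
    exact (eventually_int x).and ((eventually_int _).and
      ((eventually_ne_zero (mul_ne_zero X_ne_zero hw)).and
        (eventually_ne_zero (mul_ne_zero X_ne_zero hmw0))))
  obtain ⟨n, ⟨⟨x', hx'⟩, ⟨d', hd'⟩, hd0, hQd⟩, h1, h2⟩ := hev.exists
  have hd : (X * w).eval (n.factorial : ℚ) = (((N : ℤ) * d' : ℤ) : ℚ) := by
    have hN' : (N : ℚ) ≠ 0 := Nat.cast_ne_zero.2 hN.ne'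
    simp only [eval_mul, eval_X, eval_C] at hd' ⊢
    push_cast
    rw [← hd']
    field_simp
  set d : ℤ := (N : ℤ) * d' with hddef
  have hev2 : ∀ p : ℤ[X], (aeval (X * w) p).eval (n.factorial : ℚ) = ((p.eval d : ℤ) : ℚ) := by
    intro p
    induction p using Polynomial.induction_on' with
    | add p q hp hq => simp only [map_add, eval_add, hp, hq, Int.cast_add]
    | monomial j a =>
      rw [aeval_monomial, eval_mul, eval_pow, hd]
      simp
  have hv1 : val W n = Q.eval d * (k + x') := by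
    have : X * W = aeval (X * w) Q * ((k : ℚ[X]) + X * x) := by
      rw [← hmQ, hW]; ring
    simp only [val]
    rw [this, eval_mul, hev2, eval_add, hx', eval_intCast, ← Int.cast_add, ← Int.cast_mul,
      Rat.num_intCast]
  have hv2 : ∀ p ∈ S, val (V p) n = Q.eval d * (k + x' - p.eval d) := by
    intro p hp
    have h3 := hsplit (Q₁ * p) w
    rw [map_mul, eval_mul, hS p hp] at h3
    have : X * V p = aeval (X * w) Q * ((k : ℚ[X]) + X * x - aeval (X * w) p) := by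
      simp only [V, gp]
      rw [← hmQ, hW, hmw, eval_mul, eval_pow, eval_X, eval_dil]
      linear_combination (X * w) * h3
    simp only [val]
    rw [this, eval_mul, eval_sub, eval_add, hev2, hev2, hx', eval_intCast, ← Int.cast_add,
      ← Int.cast_sub, ← Int.cast_mul, Rat.num_intCast]
  refine ⟨k + x', d, ?_, dvd_mul_right _ _, ?_, fun p hp => ?_⟩
  · intro h0
    exact hd0 (by rw [hd, h0, Int.cast_zero])
  · intro h0
    apply hQd
    rw [hmQ, hev2, h0, Int.cast_zero]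
  · rw [← hv2 p hp, ← hv1, h1, h2 p hp]
    exact h _ (Finset.mem_image_of_mem _ hp)

end Pool.Agent.Work.MP_5597c5_co.Hedge
end
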